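import Pool.Agent.KS6_95.QK.Sk

set_option autoImplicit false

/-!
# Complex structures on products and bundles of Sol manifolds and manifolds with quaternionic cones

Let `A` be a matrix in `SL(2, ℤ)` with trace `> 2`, and let `N` be the mapping torus of the
automorphism `A` of the torus `T²`: the quotient of `ℝ² × ℝ` by the maps
`(v, t) ↦ (A ^ k v + j, t + k)`, `k ∈ ℤ`, `j ∈ ℤ²`. The manifolds `N` are compact quotients of the
three dimensional solvable Lie group `Sol` by lattices. `N × S¹` carries no complex structure; in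
particular `N` has no normal almost contact structure, so the theorems of Calabi-Eckmann and
Morimoto do not apply to products `N × K`.

A quaternionic cone of a manifold `K` is a complex structure on `K × ℝ` and a smooth action `ρ` of
the unit quaternions on `K`, such that `(x, t) ↦ (ρ (e ^ (i b)) x, t + a)` is a holomorphic action of
the complex numbers `a + i b`. (So `K` carries a normal almost contact structure whose Reeb flow
is the flow of a circle in a group `SU(2)` of diffeomorphisms of `K`. All 3-Sasakian manifolds and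
all nonabelian compact connected Lie groups of odd dimension are examples.)

Then `N × K` carries a complex structure, and so does every quotient of `(ℝ² × ℝ) × K` by maps
`(γ, a)` where `γ` is a deck transformation as above and `a` an automorphism of the quaternionic cone.
The hypotheses are verified for the spheres `K = S ^ (4 l + 3)` in the quaternionic vector spaces.
This gives complex structures on `N × (S ^ (4 l + 3) / G)` for the finite groups `G` of quaternionic
unitary matrices which act freely, for instance on `N × (S³ / G)` for all finite subgroups `G` of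
`SU(2)`, and on the flat bundles over `N` with such fibres and with holonomy in `Sp(l + 1)`.

The idea of the proof. Let `r`, `s` be linear functions on `ℝ²` with `r(A v) = α r(v)`,
`s(A v) = α⁻¹ s(v)`, `α > 1`. There is a smooth map `g` from `ℝ² × ℝ` to the unit quaternions with
`g(A v, t + 1) = g(v, t)` and `g(v + j, t) = e ^ (i φ_j(v)) g(v, t)` with
`φ_j(v) = - κ s(j) (r(v) + r(j) / 2)`, built from theta functions and a homotopy given by the
theorem of Sard. In the coordinates `z = r(v) + i α ^ t` and `ζ = ψ(ρ(g(v, t)) x, κ s(v) α ^ t)`, where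
`ψ` is the map from `K × ℝ` to its complex version and `Φ` the action of the complex numbers, the deck
transformations of `N × K` are the holomorphic maps
`(z, ζ) ↦ (α ^ k z + r(j), Φ(- i κ s(j) (α ^ k z + r(j) / 2)) ζ)`.
-/

namespace Pool.Agent.Results.MP_1d980c_gt.SolTimesQuaternionic

open Module Quaternion
open scoped Manifold ContDiff

/-- The smooth manifold `M` is diffeomorphic to a complex manifold of dimension `k`. -/
def HasComplexStructure (k : ℕ) {E H : Type} [NormedAddCommGroup E] [NormedSpace ℝ E]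
    [TopologicalSpace H] (I : ModelWithCorners ℝ E H) (M : Type) [TopologicalSpace M]
    [ChartedSpace H M] : Prop :=
  ∃ (Z : Type) (_ : TopologicalSpace Z) (_ : ChartedSpace (EuclideanSpace ℂ (Fin k)) Z),
    IsManifold 𝓘(ℂ, EuclideanSpace ℂ (Fin k)) ∞ Z ∧
    Nonempty (Diffeomorph I 𝓘(ℝ, EuclideanSpace ℂ (Fin k)) M Z ∞)

/-- The smooth manifold `M` is the quotient of `X` by the maps in `T`: the map `π` from `X` to `M` is
surjective, a local diffeomorphism, and its fibres are the orbits. -/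
def IsQuotient {EX HX X E H M : Type} [NormedAddCommGroup EX] [NormedSpace ℝ EX]
    [TopologicalSpace HX] (IX : ModelWithCorners ℝ EX HX) [TopologicalSpace X] [ChartedSpace HX X]
    [NormedAddCommGroup E] [NormedSpace ℝ E] [TopologicalSpace H] (I : ModelWithCorners ℝ E H)
    [TopologicalSpace M] [ChartedSpace H M] (T : Set (X → X)) (π : X → M) : Prop :=
  IsManifold I ∞ M ∧ Function.Surjective π ∧ IsLocalDiffeomorph IX I ∞ π ∧
    ∀ x y, π x = π y ↔ ∃ f ∈ T, f x = y

/-- The map `(v, t) ↦ (A ^ k v + j, t + k)` of `ℝ² × ℝ`. -/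
noncomputable def deck (A : Matrix.SpecialLinearGroup (Fin 2) ℤ) (k : ℤ) (j : Fin 2 → ℤ)
    (x : (Fin 2 → ℝ) × ℝ) : (Fin 2 → ℝ) × ℝ :=
  (Matrix.mulVec ((A ^ k).1.map (Int.cast : ℤ → ℝ)) x.1 + (fun i => (j i : ℝ)), x.2 + k)

/-- `ρ` is a smooth action of the group of nonzero quaternions on the manifold `K`. -/
def IsQuaternionAction {E H K : Type} [NormedAddCommGroup E] [NormedSpace ℝ E]
    [TopologicalSpace H] (I : ModelWithCorners ℝ E H) [TopologicalSpace K] [ChartedSpace H K]
    (ρ : ℍ[ℝ] → K → K) : Prop :=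
  (∀ x, ρ 1 x = x) ∧ (∀ a b, a ≠ 0 → b ≠ 0 → ∀ x, ρ (a * b) x = ρ a (ρ b x)) ∧
    ContMDiffOn (𝓘(ℝ, ℍ[ℝ]).prod I) I ∞ (fun p : ℍ[ℝ] × K => ρ p.1 p.2) {p | p.1 ≠ 0}

/-- A quaternionic cone of the manifold `K`: a complex manifold `Z`, a diffeomorphism `ψ` from
`K × ℝ` to `Z` and an action `ρ` of the nonzero quaternions on `K`, such that the action of the
unit complex numbers on `K` and the translations of `ℝ` give a holomorphic action `Φ` of `ℂ` on
`Z`. -/
structure QuaternionicCone {E H : Type} [NormedAddCommGroup E] [NormedSpace ℝ E]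
    [TopologicalSpace H] (I : ModelWithCorners ℝ E H) (K : Type) [TopologicalSpace K]
    [ChartedSpace H K] (F : Type) [NormedAddCommGroup F] [NormedSpace ℂ F] where
  /-- the complex manifold -/
  Z : Type
  [top : TopologicalSpace Z]
  [charts : ChartedSpace F Z]
  [isManifold : IsManifold 𝓘(ℂ, F) ∞ Z]
  /-- the diffeomorphism with `K × ℝ` -/
  ψ : Diffeomorph (I.prod 𝓘(ℝ, ℝ)) 𝓘(ℝ, F) (K × ℝ) Z ∞
  /-- the action of the quaternions -/
  ρ : ℍ[ℝ] → K → K
  isAction : IsQuaternionAction I ρ
  /-- the action of the complex numbers -/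
  Φ : ℂ → Z → Z
  isHolomorphic : ContMDiff (𝓘(ℂ, ℂ).prod 𝓘(ℂ, F)) 𝓘(ℂ, F) ∞ (fun p : ℂ × Z => Φ p.1 p.2)
  isCone : ∀ (c : ℂ) x t,
    Φ c (ψ (x, t)) = ψ (ρ (Complex.exp (c.im * Complex.I) : ℂ) x, t + c.re)

attribute [instance] QuaternionicCone.top QuaternionicCone.charts QuaternionicCone.isManifold

/-- The map `a` of `K` commutes with the quaternions, and `a × id` is holomorphic. -/
def QuaternionicCone.IsAutomorphism {E H K F : Type} [NormedAddCommGroup E] [NormedSpace ℝ E]
    [TopologicalSpace H] {I : ModelWithCorners ℝ E H} [TopologicalSpace K]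
    [ChartedSpace H K] [NormedAddCommGroup F] [NormedSpace ℂ F] (C : QuaternionicCone I K F)
    (a : K → K) : Prop :=
  (∀ c, c ≠ 0 → ∀ u, a (C.ρ c u) = C.ρ c (a u)) ∧
    ContMDiff 𝓘(ℂ, F) 𝓘(ℂ, F) ∞ (fun z => C.ψ (a (C.ψ.symm z).1, (C.ψ.symm z).2))

/-- The map `f` of `(ℝ² × ℝ) × K` is `(deck A k j, a)` for an automorphism `a` of the cone. -/
def QuaternionicCone.IsDeck {E H K F : Type} [NormedAddCommGroup E] [NormedSpace ℝ E]
    [TopologicalSpace H] {I : ModelWithCorners ℝ E H} [TopologicalSpace K]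
    [ChartedSpace H K] [NormedAddCommGroup F] [NormedSpace ℂ F] (C : QuaternionicCone I K F)
    (A : Matrix.SpecialLinearGroup (Fin 2) ℤ)
    (f : ((Fin 2 → ℝ) × ℝ) × K → ((Fin 2 → ℝ) × ℝ) × K) : Prop :=
  ∃ k j a, C.IsAutomorphism a ∧ ∀ x u, f (x, u) = (deck A k j x, a u)

/-- (1) `N × K` carries a complex structure if `K` has a quaternionic cone. -/
def ProductsAreComplex (A : Matrix.SpecialLinearGroup (Fin 2) ℤ) : Prop :=
  ∀ (q : ℕ) {E H : Type} [NormedAddCommGroup E] [NormedSpace ℝ E] [TopologicalSpace H]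
    (I : ModelWithCorners ℝ E H) (K : Type) [TopologicalSpace K] [ChartedSpace H K]
    (_ : QuaternionicCone I K (EuclideanSpace ℂ (Fin q)))
    (N : Type) [TopologicalSpace N] [ChartedSpace (EuclideanSpace ℝ (Fin 3)) N]
    (π : (Fin 2 → ℝ) × ℝ → N),
    IsQuotient 𝓘(ℝ, (Fin 2 → ℝ) × ℝ) (𝓡 3) {f | ∃ k j, f = deck A k j} π →
    HasComplexStructure (q + 1) ((𝓡 3).prod I) (N × K)

/-- (2) The quotients of `(ℝ² × ℝ) × K` by maps `(deck A k j, a)`, where the maps `a` are
automorphisms of a quaternionic cone of `K`, carry complex structures. -/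
def BundlesAreComplex (A : Matrix.SpecialLinearGroup (Fin 2) ℤ) : Prop :=
  ∀ (q : ℕ) {E H E' H' : Type} [NormedAddCommGroup E] [NormedSpace ℝ E] [TopologicalSpace H]
    (I : ModelWithCorners ℝ E H) [NormedAddCommGroup E'] [NormedSpace ℝ E'] [TopologicalSpace H']
    (I' : ModelWithCorners ℝ E' H') (K : Type) [TopologicalSpace K] [ChartedSpace H K]
    (C : QuaternionicCone I K (EuclideanSpace ℂ (Fin q)))
    (M : Type) [TopologicalSpace M] [ChartedSpace H' M]
    (T : Set (((Fin 2 → ℝ) × ℝ) × K → ((Fin 2 → ℝ) × ℝ) × K)) (π : ((Fin 2 → ℝ) × ℝ) × K → M),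
    (∀ f ∈ T, C.IsDeck A f) → IsQuotient (𝓘(ℝ, (Fin 2 → ℝ) × ℝ).prod I) I' T π →
    HasComplexStructure (q + 1) I' M

/-- The quaternionic vector space of dimension `l + 1`. -/
abbrev QuaternionicSpace (l : ℕ) : Type := EuclideanSpace ℍ[ℝ] (Fin (l + 1))

/-- Its real dimension is `4 l + 4`, and the unit sphere is a manifold of dimension `4 l + 3`. -/
instance (l : ℕ) : Fact (finrank ℝ (QuaternionicSpace l) = 4 * l + 3 + 1) :=
  ⟨Pool.Agent.KS6_95.QK.finrank_HE l⟩

/-- The product of `ℝ² × ℝ` and the unit sphere in the quaternionic vector space. -/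
abbrev Covering (l : ℕ) : Type :=
  ((Fin 2 → ℝ) × ℝ) × Metric.sphere (0 : QuaternionicSpace l) 1

/-- The map `f` is `(deck A k j, B)` for an isometry `B` which is linear over the quaternions. -/
def IsSphereDeck (A : Matrix.SpecialLinearGroup (Fin 2) ℤ) (l : ℕ) (f : Covering l → Covering l) :
    Prop :=
  ∃ (k : ℤ) (j : Fin 2 → ℤ) (B : QuaternionicSpace l →ₗᵢ[ℍ[ℝ]] QuaternionicSpace l),
    ∀ x, (f x).1 = deck A k j x.1 ∧ (f x).2.1 = B x.2.1

/-- The smooth manifold `M` is the quotient of the product of `ℝ² × ℝ` and the sphere by the maps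
in `T`. -/
def IsSphereQuotient (l : ℕ) {E H M : Type} [NormedAddCommGroup E] [NormedSpace ℝ E]
    [TopologicalSpace H] (I : ModelWithCorners ℝ E H) [TopologicalSpace M] [ChartedSpace H M]
    (T : Set (Covering l → Covering l)) (π : Covering l → M) : Prop :=
  IsQuotient (𝓘(ℝ, (Fin 2 → ℝ) × ℝ).prod (𝓡 (4 * l + 3))) I T π

/-- (3) The quotients of `(ℝ² × ℝ) × S ^ (4 l + 3)` by maps `(deck A k j, B)`, where the maps `B` are
isometries which are linear over the quaternions, carry complex structures. -/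
def SphereBundlesAreComplex (A : Matrix.SpecialLinearGroup (Fin 2) ℤ) : Prop :=
  ∀ (l : ℕ) {E H : Type} [NormedAddCommGroup E] [NormedSpace ℝ E] [TopologicalSpace H]
    (I : ModelWithCorners ℝ E H) (M : Type) [TopologicalSpace M] [ChartedSpace H M]
    (T : Set (Covering l → Covering l)) (π : Covering l → M),
    (∀ f ∈ T, IsSphereDeck A l f) → IsSphereQuotient l I T π → HasComplexStructure (2 * l + 3) I M

theorem result (A : Matrix.SpecialLinearGroup (Fin 2) ℤ) (hA : 2 < A.1.trace) :
    ProductsAreComplex A ∧ BundlesAreComplex A ∧ SphereBundlesAreComplex A := by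
  refine ⟨?_, ?_, ?_⟩
  · intro q E H _ _ _ I K _ _ C N _ _ π hπ
    obtain ⟨h1, h2, h3, h4⟩ := hπ
    refine Pool.Agent.KS6_95.QK.final_prod A hA C.ρ C.isAction.1 C.isAction.2.1 C.isAction.2.2 C.ψ
      C.Φ C.isHolomorphic C.isCone N π h2 h3 fun x y => ?_
    rw [h4]
    constructor
    · rintro ⟨_, ⟨k, j, rfl⟩, h⟩
      exact ⟨k, j, h⟩
    · rintro ⟨k, j, h⟩
      exact ⟨_, ⟨k, j, rfl⟩, h⟩
  · intro q E H E' H' _ _ _ I _ _ _ I' K _ _ C M _ _ T π hT hπ
    obtain ⟨h1, h2, h3, h4⟩ := hπ
    refine Pool.Agent.KS6_95.QK.final A hA C.ρ C.isAction.1 C.isAction.2.1 C.isAction.2.2 C.ψ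
      C.Φ C.isHolomorphic C.isCone I' T (fun f hf => ?_) π h2 h3 h4
    obtain ⟨k, j, a, ⟨ha1, ha2⟩, hfa⟩ := hT f hf
    refine ⟨k, j, a, ?_, ha1, ha2, hfa⟩
    have h5 : a = fun u => (C.ψ.symm ((fun z => C.ψ (a (C.ψ.symm z).1, (C.ψ.symm z).2))
        (C.ψ (u, 0)))).1 := by
      funext u
      simp only
      rw [C.ψ.symm_apply_apply, C.ψ.symm_apply_apply]
    rw [h5]
    exact continuous_fst.comp (C.ψ.symm.continuous.comp (ha2.continuous.comp
      (C.ψ.continuous.comp (continuous_id.prodMk continuous_const))))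
  · intro l E H _ _ _ I M _ _ T π hT hπ
    obtain ⟨h1, h2, h3, h4⟩ := hπ
    refine Pool.Agent.KS6_95.QK.final_sphere l A hA I T (fun f hf => ?_) π h2 h3 h4
    obtain ⟨k, j, B, hf'⟩ := hT f hf
    exact ⟨k, j, B.toLinearMap, B.norm_map, fun x u => hf' (x, u)⟩

end Pool.Agent.Results.MP_1d980c_gt.SolTimesQuaternionic
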