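import Pool.Agent.KS6_95.SO.Fn

set_option autoImplicit false

/-!
# Complex structures on the products of Sol manifolds with spheres

Let `A` be a matrix in `SL(2, ℤ)` with trace `> 2`, and let `N` be the mapping torus of the
automorphism `A` of the torus `T²`: the quotient of `ℝ² × ℝ` by the maps
`(v, t) ↦ (A ^ k v + j, t + k)`, `k ∈ ℤ`, `j ∈ ℤ²`. The manifolds `N` are the compact quotients of
the three dimensional solvable Lie group `Sol` by lattices.

Then `N × S ^ n` carries a complex structure for each odd `n ≥ 3`.

The circle is a genuine exception: `N × S¹` does not carry a complex structure. In particular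
`N` has no normal almost contact structure, so the products are not covered by the theorems of
Calabi-Eckmann and Morimoto. The Lie group `Sol × SU(2)` has no left invariant complex structure.

The idea of the proof. Let `r`, `s` be linear functions on `ℝ²` with `r(A v) = α r(v)`,
`s(A v) = α⁻¹ s(v)`, `α > 1`. The contracting lines of `A` form a transversely holomorphic
foliation of `N` with the transverse coordinate `z = r(v) + i α ^ t` in the upper half plane. There
is a complex line bundle `L` on `N` with the curvature a multiple of `dr ∧ ds`, and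
`w = exp(κ s(v) α ^ t) u` are coordinates on the sphere bundle of the sum of `q` copies of `L` in
which the fundamental group acts by the holomorphic maps
`(z, w) ↦ (α ^ k z + r(j), exp(- i κ s(j) (α ^ k z + r(j) / 2)) w)` of `{Im z > 0, w ≠ 0}`. For
`q = 1` the quotient is a surface of Inoue. For `q ≥ 2` and `L` of degree four on the torus the
sphere bundle is trivial; a trivialisation is built from quaternions whose components are theta
functions of degree two, or their squares, from the rotations given by these quaternions, and from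
a homotopy given by the theorem of Sard.
-/

namespace Pool.Agent.Results.MP_1d980c_gt.SolTimesSphere

open Module
open scoped Manifold ContDiff

/-- The smooth manifold `M` is diffeomorphic to a complex manifold of dimension `k`. -/
def HasComplexStructure (k : ℕ) {E H : Type} [NormedAddCommGroup E] [NormedSpace ℝ E]
    [TopologicalSpace H] (I : ModelWithCorners ℝ E H) (M : Type) [TopologicalSpace M]
    [ChartedSpace H M] : Prop :=
  ∃ (Z : Type) (_ : TopologicalSpace Z) (_ : ChartedSpace (EuclideanSpace ℂ (Fin k)) Z),
    IsManifold 𝓘(ℂ, EuclideanSpace ℂ (Fin k)) ∞ Z ∧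
    Nonempty (Diffeomorph I 𝓘(ℝ, EuclideanSpace ℂ (Fin k)) M Z ∞)

/-- The map `(v, t) ↦ (A ^ k v + j, t + k)` of `ℝ² × ℝ`. -/
noncomputable def deck (A : Matrix.SpecialLinearGroup (Fin 2) ℤ) (k : ℤ) (j : Fin 2 → ℤ)
    (x : (Fin 2 → ℝ) × ℝ) : (Fin 2 → ℝ) × ℝ :=
  (Matrix.mulVec ((A ^ k).1.map (Int.cast : ℤ → ℝ)) x.1 + (fun i => (j i : ℝ)), x.2 + k)

/-- The map `π` from `ℝ² × ℝ` to the smooth manifold `N` is a local diffeomorphism onto `N` whose
fibres are the orbits of the maps `deck A k j`; so `N` is the mapping torus of `A`. -/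
def IsMappingTorus (A : Matrix.SpecialLinearGroup (Fin 2) ℤ) (N : Type) [TopologicalSpace N]
    [ChartedSpace (EuclideanSpace ℝ (Fin 3)) N] (π : (Fin 2 → ℝ) × ℝ → N) : Prop :=
  IsManifold (𝓡 3) ∞ N ∧ Function.Surjective π ∧
    IsLocalDiffeomorph 𝓘(ℝ, (Fin 2 → ℝ) × ℝ) (𝓡 3) ∞ π ∧
    ∀ x y, π x = π y ↔ ∃ (k : ℤ) (j : Fin 2 → ℤ), deck A k j x = y

/-- The product of `N` with the unit sphere of dimension `2 l + 3` is diffeomorphic to a complex
manifold of dimension `l + 3`. -/
def SphereProductIsComplex (l : ℕ) (N : Type) [TopologicalSpace N]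
    [ChartedSpace (EuclideanSpace ℝ (Fin 3)) N] : Prop :=
  HasComplexStructure (l + 3) ((𝓡 3).prod (𝓡 (2 * l + 3)))
    (N × Metric.sphere (0 : EuclideanSpace ℝ (Fin (2 * l + 3 + 1))) 1)

theorem result (l : ℕ) (A : Matrix.SpecialLinearGroup (Fin 2) ℤ) (hA : 2 < A.1.trace)
    (N : Type) [TopologicalSpace N] [ChartedSpace (EuclideanSpace ℝ (Fin 3)) N]
    (π : (Fin 2 → ℝ) × ℝ → N) (hN : IsMappingTorus A N π) : SphereProductIsComplex l N := by
  obtain ⟨h1, h2, h3, h4⟩ := hN
  exact Pool.Agent.KS6_95.SO.final l A hA N π h2 h3 h4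

end Pool.Agent.Results.MP_1d980c_gt.SolTimesSphere
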