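import Pool.Agent.KS6_95.PK.Sp

set_option autoImplicit false

/-!
# Complex structures on products of torus bundles over surfaces and normal almost contact manifolds

Let `n ≥ 1`. Let `N` be a manifold of dimension `2n + 3` which is a quotient of `Y × V`,
`V = ℝ ^ (2n + 1)`, by a group `P`, where

* `Y` is the complex plane or the upper half plane, and `P` acts on it by holomorphic maps, properly
  discontinuously and cocompactly, so that `S = Y / P` is a closed Riemann surface,
* `γ ∈ P` acts by `(z, v) ↦ (γ z, A_γ v + b_γ(z))`, where `A` is a representation of `P` on `V`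
  and `b_γ` is smooth, and constant if `γ` acts trivially on `Y`,
* there are a nonconstant holomorphic function `F` on `Y` with `F (γ z) - F z = a(γ) + b(γ) i` in
  `ℤ[i]`, an integer `ε` and a smooth map `G : Y → GL(V)` with
  `G(γ z) T(ε a(γ), ε b(γ)) = A_γ G(z)`, where `T(a, b)` is the diagonal matrix with the entries
  `(-1)^b, (-1)^(a+b), (-1)^a, 1, …, 1`.

For even `ε` the last condition says that the flat vector bundle `V_A` over `S` with holonomy `A` is
trivial as a smooth vector bundle; for odd `ε` and `F` of odd degree it says that `V_A` is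
isomorphic to the orientable vector bundle with `w₂ ≠ 0`. Every closed oriented surface of genus
`≥ 1` has a complex structure with such a function `F` of odd degree. So `N` can be every
bundle over a closed oriented surface of genus `≥ 1` with fibre the torus `T ^ (2n + 1)`,
structure group the affine group of the torus and monodromy in `SL(2n + 1, ℤ)`.

Let `K` be a manifold with a complex cone, i.e. with a normal almost contact structure: there is a
complex structure on `K × ℝ`, and a flow `σ` on `K` such that `(x, t) ↦ (σ_b x, t + a)` is a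
holomorphic action of the complex numbers `a + i b`. (Examples are all Sasakian manifolds, in
particular the odd spheres and the links of isolated singularities given by weighted homogeneous
polynomials, among them exotic spheres, and all compact Lie groups of odd dimension.)

Then `N × K` carries a complex structure, and so does every quotient of `(Y × V) × K` by maps
`(γ, a)` where `γ ∈ P` acts as above and `a` is an automorphism of the complex cone. The hypotheses
on `K` are verified for the spheres of odd dimension and the unitary maps.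

The idea of the proof: `N × S¹` has a complex structure in which the rotations of `S¹` are
holomorphic, given by a smooth family `S(z)` of real isomorphisms from `V × ℝ` to
`ℂ ^ (n + 1)`, built from theta functions (for odd `ε` the rows of the family are permuted by the deck
group), and by a solution `c` of a system of `∂̄`-equations. The vector field `i ∂ / ∂r`, however,
is not tangent to `N`, and its component in the direction of `∂ / ∂r` is not constant. Nevertheless
the group `ℂ` acts holomorphically on `Y × ℂ ^ (n + 1) × (K × ℝ)`, by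
`λ (z, w, ζ) = (z, w + λ S(z)(0, 1), Φ(i λ) ζ)`, and each orbit meets `(Y × V × 0) × (K × 0)` in exactly one
point, so that `(Y × V) × K` is the quotient by this action.
-/

namespace Pool.Agent.Results.MP_1d980c_gt.TorusBundlesTimesContact

open Module TopologicalSpace
open scoped Manifold ContDiff

/-- The smooth manifold `M` is diffeomorphic to a complex manifold of dimension `k`. -/
def HasComplexStructure (k : ℕ) {E H : Type} [NormedAddCommGroup E] [NormedSpace ℝ E]
    [TopologicalSpace H] (I : ModelWithCorners ℝ E H) (M : Type) [TopologicalSpace M]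
    [ChartedSpace H M] : Prop :=
  ∃ (Z : Type) (_ : TopologicalSpace Z) (_ : ChartedSpace (EuclideanSpace ℂ (Fin k)) Z),
    IsManifold 𝓘(ℂ, EuclideanSpace ℂ (Fin k)) ∞ Z ∧
    Nonempty (Diffeomorph I 𝓘(ℝ, EuclideanSpace ℂ (Fin k)) M Z ∞)

/-- The smooth manifold `M` is the quotient of `X` by the maps in `T`: the map `π` from `X` to `M` is
surjective, a local diffeomorphism, and its fibres are the orbits. -/
def IsQuotient {EX HX X E H M : Type} [NormedAddCommGroup EX] [NormedSpace ℝ EX]
    [TopologicalSpace HX] (IX : ModelWithCorners ℝ EX HX) [TopologicalSpace X] [ChartedSpace HX X]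
    [NormedAddCommGroup E] [NormedSpace ℝ E] [TopologicalSpace H] (I : ModelWithCorners ℝ E H)
    [TopologicalSpace M] [ChartedSpace H M] (T : Set (X → X)) (π : X → M) : Prop :=
  IsManifold I ∞ M ∧ Function.Surjective π ∧ IsLocalDiffeomorph IX I ∞ π ∧
    ∀ x y, π x = π y ↔ ∃ f ∈ T, f x = y

/-- The set `Y` is the plane or the upper half plane, and the group `P` acts on it by holomorphic
maps, properly discontinuously and cocompactly. -/
def IsSurfaceGroup (Y : Opens ℂ) (P : Type) [Group P] [MulAction P Y] : Prop :=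
  ((Y : Set ℂ) = Set.univ ∨ (Y : Set ℂ) = {z | 0 < z.im}) ∧
  (∀ γ : P, ContMDiff 𝓘(ℂ) 𝓘(ℂ) ∞ fun z : Y => γ • z) ∧
  (∀ C : Set Y, IsCompact C →
    {g : Y → Y | ∃ γ : P, (g = fun z => γ • z) ∧ ∃ z ∈ C, γ • z ∈ C}.Finite) ∧
  ∃ C : Set Y, IsCompact C ∧ ∀ z, ∃ γ : P, γ • z ∈ C

/-- The diagonal matrix `T(a, b)` with the entries `(-1)^b, (-1)^(a+b), (-1)^a, 1, …, 1`. -/
noncomputable def twist {N : ℕ} (a b : ℤ) (v : Fin N → ℝ) : Fin N → ℝ := fun i =>
  if (i : ℕ) = 0 then (-1) ^ b * v i
  else if (i : ℕ) = 1 then (-1) ^ (a + b) * v i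
  else if (i : ℕ) = 2 then (-1) ^ a * v i
  else v i

section

variable {Y : Opens ℂ} {P : Type} [Group P] [MulAction P Y] {V : Type} [NormedAddCommGroup V]
  [NormedSpace ℝ V]

/-- There are a nonconstant holomorphic function `F` on `Y` with periods in `ℤ[i]` and a smooth
isomorphism `G` of the bundle with the transition functions `T(ε a, ε b)` with the flat bundle with
the holonomy `A`. Here `x` is a system of `2 n + 1` coordinates of `V`. -/
def HasFrame (n : ℕ) (Y : Opens ℂ) [MulAction P Y] (A : P →* (V →L[ℝ] V)) : Prop :=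
  ∃ (ε : ℤ) (F : Y → ℂ) (x : V ≃L[ℝ] (Fin (2 * n + 1) → ℝ)) (G : Y → V ≃L[ℝ] V),
    ContMDiff 𝓘(ℂ) 𝓘(ℂ) ∞ F ∧ (∃ z w, F z ≠ F w) ∧
    ContMDiff 𝓘(ℝ, ℂ) 𝓘(ℝ, V →L[ℝ] V) ∞ (fun z => (G z : V →L[ℝ] V)) ∧
    ∀ γ : P, ∃ a b : ℤ, (∀ z, F (γ • z) = F z + a + b * Complex.I) ∧
      ∀ z v, G (γ • z) (x.symm (twist (ε * a) (ε * b) (x v))) = A γ (G z v)

/-- The maps `b γ` are smooth, `(z, v) ↦ (γ z, A γ v + b γ z)` is an action of `P`, and `b γ` is
constant if `γ` acts trivially on `Y`. -/
def IsCocycle (A : P →* (V →L[ℝ] V)) (b : P → Y → V) : Prop :=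
  (∀ γ, ContMDiff 𝓘(ℝ, ℂ) 𝓘(ℝ, V) ∞ (b γ)) ∧
  (∀ γ δ z, b (γ * δ) z = A γ (b δ z) + b γ (δ • z)) ∧
  ∀ γ, (∀ z : Y, γ • z = z) → ∃ v, ∀ z, b γ z = v

/-- The map `(z, v) ↦ (γ z, A γ v + b γ z)`. -/
def deck (A : P →* (V →L[ℝ] V)) (b : P → Y → V) (γ : P) (x : Y × V) : Y × V :=
  (γ • x.1, A γ x.2 + b γ x.1)

end

/-- A complex cone of the manifold `K`: a complex manifold `Z`, a diffeomorphism `ψ` from `K × ℝ` to
`Z` and a flow `σ` on `K`, such that the flow and the translations of `ℝ` give a holomorphic action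
`Φ` of `ℂ` on `Z`. -/
structure ComplexCone {E H : Type} [NormedAddCommGroup E] [NormedSpace ℝ E]
    [TopologicalSpace H] (I : ModelWithCorners ℝ E H) (K : Type) [TopologicalSpace K]
    [ChartedSpace H K] (F : Type) [NormedAddCommGroup F] [NormedSpace ℂ F] where
  /-- the complex manifold -/
  Z : Type
  [top : TopologicalSpace Z]
  [charts : ChartedSpace F Z]
  [isManifold : IsManifold 𝓘(ℂ, F) ∞ Z]
  /-- the diffeomorphism with `K × ℝ` -/
  ψ : Diffeomorph (I.prod 𝓘(ℝ, ℝ)) 𝓘(ℝ, F) (K × ℝ) Z ∞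
  /-- the flow -/
  σ : ℝ → K → K
  zero : ∀ x, σ 0 x = x
  add : ∀ s t x, σ (s + t) x = σ s (σ t x)
  smooth : ContMDiff (𝓘(ℝ, ℝ).prod I) I ∞ (fun p : ℝ × K => σ p.1 p.2)
  /-- the action of the complex numbers -/
  Φ : ℂ → Z → Z
  isHolomorphic : ContMDiff (𝓘(ℂ, ℂ).prod 𝓘(ℂ, F)) 𝓘(ℂ, F) ∞ (fun p : ℂ × Z => Φ p.1 p.2)
  isCone : ∀ (c : ℂ) x t, Φ c (ψ (x, t)) = ψ (σ c.im x, t + c.re)

attribute [instance] ComplexCone.top ComplexCone.charts ComplexCone.isManifold

/-- The map `a` of `K` commutes with the flow, and `a × id` is holomorphic. -/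
def ComplexCone.IsAutomorphism {E H K F : Type} [NormedAddCommGroup E] [NormedSpace ℝ E]
    [TopologicalSpace H] {I : ModelWithCorners ℝ E H} [TopologicalSpace K]
    [ChartedSpace H K] [NormedAddCommGroup F] [NormedSpace ℂ F] (C : ComplexCone I K F)
    (a : K → K) : Prop :=
  (∀ t u, a (C.σ t u) = C.σ t (a u)) ∧
    ContMDiff 𝓘(ℂ, F) 𝓘(ℂ, F) ∞ (fun z => C.ψ (a (C.ψ.symm z).1, (C.ψ.symm z).2))

section

variable (n : ℕ) {Y : Opens ℂ} {P : Type} [Group P] [MulAction P Y] {V : Type}
  [NormedAddCommGroup V] [NormedSpace ℝ V] (A : P →* (V →L[ℝ] V)) (b : P → Y → V)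

/-- (1) `N × K` carries a complex structure if `N` is the quotient of `Y × V` by `P` and `K` has a
complex cone. -/
def ProductsAreComplex : Prop :=
  ∀ (q : ℕ) {E H E' H' : Type} [NormedAddCommGroup E] [NormedSpace ℝ E] [TopologicalSpace H]
    (I : ModelWithCorners ℝ E H) [NormedAddCommGroup E'] [NormedSpace ℝ E'] [TopologicalSpace H']
    (I' : ModelWithCorners ℝ E' H') (K : Type) [TopologicalSpace K] [ChartedSpace H K]
    (_ : ComplexCone I K (EuclideanSpace ℂ (Fin q)))
    (N : Type) [TopologicalSpace N] [ChartedSpace H' N] (π : Y × V → N),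
    IsQuotient (𝓘(ℝ, ℂ).prod 𝓘(ℝ, V)) I' {f | ∃ γ, f = deck A b γ} π →
    HasComplexStructure (n + 1 + q) (I'.prod I) (N × K)

/-- (2) The quotients of `(Y × V) × K` by maps `(deck A b γ, a)`, where the maps `a` are automorphisms
of a complex cone of `K`, carry complex structures. -/
def BundlesAreComplex : Prop :=
  ∀ (q : ℕ) {E H E' H' : Type} [NormedAddCommGroup E] [NormedSpace ℝ E] [TopologicalSpace H]
    (I : ModelWithCorners ℝ E H) [NormedAddCommGroup E'] [NormedSpace ℝ E'] [TopologicalSpace H']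
    (I' : ModelWithCorners ℝ E' H') (K : Type) [TopologicalSpace K] [ChartedSpace H K]
    (C : ComplexCone I K (EuclideanSpace ℂ (Fin q)))
    (M : Type) [TopologicalSpace M] [ChartedSpace H' M]
    (T : Set ((Y × V) × K → (Y × V) × K)) (π : (Y × V) × K → M),
    (∀ f ∈ T, ∃ γ a, C.IsAutomorphism a ∧ ∀ x u, f (x, u) = (deck A b γ x, a u)) →
    IsQuotient ((𝓘(ℝ, ℂ).prod 𝓘(ℝ, V)).prod I) I' T π →
    HasComplexStructure (n + 1 + q) I' M

end

/-- The complex vector space of dimension `l + 1`. -/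
abbrev ComplexSpace (l : ℕ) : Type := EuclideanSpace ℂ (Fin (l + 1))

/-- Its real dimension is `2 l + 2`, and the unit sphere is a manifold of dimension `2 l + 1`. -/
instance (l : ℕ) : Fact (finrank ℝ (ComplexSpace l) = 2 * l + 1 + 1) :=
  ⟨Pool.Agent.KS6_95.PK.finrank_CE l⟩

section

variable {Y : Opens ℂ} {P : Type} [Group P] [MulAction P Y] {V : Type} [NormedAddCommGroup V]
  [NormedSpace ℝ V]

/-- The product of `Y × V` and the unit sphere in the complex vector space. -/
abbrev Covering (Y : Opens ℂ) (V : Type) (l : ℕ) : Type :=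
  (Y × V) × Metric.sphere (0 : ComplexSpace l) 1

/-- The map `f` is `(deck A b γ, B)` for a unitary map `B`. -/
def IsSphereDeck (A : P →* (V →L[ℝ] V)) (b : P → Y → V) (l : ℕ)
    (f : Covering Y V l → Covering Y V l) : Prop :=
  ∃ (γ : P) (B : ComplexSpace l →ₗᵢ[ℂ] ComplexSpace l),
    ∀ x, (f x).1 = deck A b γ x.1 ∧ (f x).2.1 = B x.2.1

/-- The smooth manifold `M` is the quotient of the product of `Y × V` and the sphere by the maps
in `T`. -/
def IsSphereQuotient (l : ℕ) {E H M : Type} [NormedAddCommGroup E] [NormedSpace ℝ E]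
    [TopologicalSpace H] (I : ModelWithCorners ℝ E H) [TopologicalSpace M] [ChartedSpace H M]
    (T : Set (Covering Y V l → Covering Y V l)) (π : Covering Y V l → M) : Prop :=
  IsQuotient ((𝓘(ℝ, ℂ).prod 𝓘(ℝ, V)).prod (𝓡 (2 * l + 1))) I T π

/-- (3) The quotients of `(Y × V) × S ^ (2 l + 1)` by maps `(deck A b γ, B)`, where the maps `B` are
unitary, carry complex structures. -/
def SphereBundlesAreComplex (n : ℕ) (A : P →* (V →L[ℝ] V)) (b : P → Y → V) : Prop :=
  ∀ (l : ℕ) {E H : Type} [NormedAddCommGroup E] [NormedSpace ℝ E] [TopologicalSpace H]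
    (I : ModelWithCorners ℝ E H) (M : Type) [TopologicalSpace M] [ChartedSpace H M]
    (T : Set (Covering Y V l → Covering Y V l)) (π : Covering Y V l → M),
    (∀ f ∈ T, IsSphereDeck A b l f) → IsSphereQuotient l I T π →
    HasComplexStructure (n + 1 + (l + 1)) I M

end

theorem twist_eq {N : ℕ} (a b : ℤ) (v : Fin N → ℝ) :
    Pool.Agent.KS6_95.PK.tv N a b v = twist a b v := by
  funext i
  unfold Pool.Agent.KS6_95.PK.tv Pool.Agent.KS6_95.CX.tz twist
  split_ifs <;> simp_all

theorem result {n : ℕ} (hn : 1 ≤ n) {Y : Opens ℂ} {P : Type} [Group P] [MulAction P Y]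
    (hP : IsSurfaceGroup Y P) {V : Type} [NormedAddCommGroup V] [NormedSpace ℝ V]
    (A : P →* (V →L[ℝ] V)) (hA : HasFrame n Y A) (b : P → Y → V) (hb : IsCocycle A b) :
    ProductsAreComplex n A b ∧ BundlesAreComplex n A b ∧ SphereBundlesAreComplex n A b := by
  obtain ⟨hY, hol, hprop, hcomp⟩ := hP
  obtain ⟨ε, F, x, G, hF, hF', hG, hGA⟩ := hA
  have : FiniteDimensional ℝ V := x.symm.toLinearEquiv.finiteDimensional
  obtain ⟨hb, hbc, hbk⟩ := hb
  have hGA' : ∀ γ : P, ∃ a b : ℤ, (∀ z, F (γ • z) = F z + a + b * Complex.I) ∧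
      ∀ z v, G (γ • z) (x.symm (Pool.Agent.KS6_95.PK.tv (2 * n + 1) (ε * a) (ε * b) (x v))) =
        A γ (G z v) := by
    intro γ
    obtain ⟨a, b, h1, h2⟩ := hGA γ
    exact ⟨a, b, h1, fun z v => by rw [twist_eq]; exact h2 z v⟩
  refine ⟨?_, ?_, ?_⟩
  · intro q E H E' H' _ _ _ I _ _ _ I' K _ _ C N _ _ π hπ
    obtain ⟨h1, h2, h3, h4⟩ := hπ
    refine Pool.Agent.KS6_95.PK.final_prod hn hY hol hprop hcomp F hF hF' x A G hG ε hGA' b hb hbc hbk
      C.σ C.zero C.add C.smooth C.ψ C.Φ C.isHolomorphic C.isCone I' π h2 h3 fun x y => ?_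
    rw [h4]
    constructor
    · rintro ⟨_, ⟨γ, rfl⟩, h⟩
      exact ⟨γ, h⟩
    · rintro ⟨γ, h⟩
      exact ⟨_, ⟨γ, rfl⟩, h⟩
  · intro q E H E' H' _ _ _ I _ _ _ I' K _ _ C M _ _ T π hT hπ
    obtain ⟨h1, h2, h3, h4⟩ := hπ
    refine Pool.Agent.KS6_95.PK.final hn hY hol hprop hcomp F hF hF' x A G hG ε hGA' b hb hbc hbk
      C.σ C.zero C.add C.smooth C.ψ C.Φ C.isHolomorphic C.isCone I' T (fun f hf => ?_) π h2 h3 h4
    obtain ⟨γ, a, ⟨ha1, ha2⟩, hfa⟩ := hT f hf
    refine ⟨γ, a, ?_, ha1, ha2, hfa⟩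
    have h5 : a = fun u => (C.ψ.symm ((fun z => C.ψ (a (C.ψ.symm z).1, (C.ψ.symm z).2))
        (C.ψ (u, 0)))).1 := by
      funext u
      simp only
      rw [C.ψ.symm_apply_apply, C.ψ.symm_apply_apply]
    rw [h5]
    exact continuous_fst.comp (C.ψ.symm.continuous.comp (ha2.continuous.comp
      (C.ψ.continuous.comp (continuous_id.prodMk continuous_const))))
  · intro l E H _ _ _ I M _ _ T π hT hπ
    obtain ⟨h1, h2, h3, h4⟩ := hπ
    refine Pool.Agent.KS6_95.PK.final_sphere l hn hY hol hprop hcomp F hF hF' x A G hG ε hGA' b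
      hb hbc hbk I T (fun f hf => ?_) π h2 h3 h4
    obtain ⟨γ, B, hf'⟩ := hT f hf
    exact ⟨γ, B, fun x u => hf' (x, u)⟩

end Pool.Agent.Results.MP_1d980c_gt.TorusBundlesTimesContact
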