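import Pool.Agent.KS6_95.CX.Fn

set_option autoImplicit false

/-!
# Complex structures on affine torus bundles over closed surfaces, the non-spin case

Let `m ≥ 2`. Let `M` be a smooth manifold of dimension `2m + 2` which is a quotient of
`Y × V`, `V = ℝ ^ (2m)`, by a group `P`, where

* `Y` is the complex plane or the upper half plane, and `P` acts on it by holomorphic maps, properly
  discontinuously and cocompactly, so that `S = Y / P` is a closed Riemann surface,
* `F` is a nonconstant holomorphic function on `Y` with `F (γ z) - F z = a(γ) + b(γ) i` in `ℤ[i]`, in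
  other words a branched covering of the elliptic curve `ℂ / ℤ[i]` by `S`,
* `γ ∈ P` acts by `(z, v) ↦ (γ z, A_γ v + b_γ(z))`, where `A` is a representation of `P` on `V`
  and `b_γ` is smooth, and constant if `γ` acts trivially on `Y`,
* the flat vector bundle `V_A` over `S` with holonomy `A` is isomorphic, as a smooth vector bundle,
  to the pullback by `F` of the sum of the four real line bundles on the torus `ℂ / ℤ[i]` and a
  trivial bundle: there is a smooth `G : Y → GL(V)` with `G(γ z) T(a, b) = A_γ G(z)`, where
  `T(a, b)` is the diagonal matrix with entries `1, (-1)^b, (-1)^(a+b), (-1)^a, 1, …, 1`.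

Then `M` carries a complex structure.

If the degree of `F` is odd, the bundle with the transition functions `T` has
`w₁ = 0` and `w₂ ≠ 0`, and every oriented vector bundle of rank `2m` over `S` with `w₂ ≠ 0` is
isomorphic to it. Every closed oriented surface of genus `≥ 1` has a complex structure with such a
function `F` of odd degree. So the theorem applies to all bundles over closed oriented surfaces of
genus `≥ 1` with fibre the torus `T ^ (2m)`, structure group the affine group of the torus, and
monodromy `A` in `SL(2m, ℤ)` with `w₂(V_A) ≠ 0`, with arbitrary twisting class in `H²(S; ℤ ^ (2m)_A)`;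
these are the bundles whose vertical tangent bundle is orientable and not trivial.

The idea of the proof: for the sum `W` of the four line bundles there is a line in the twistor space
of `ℝ ^ 4` which is invariant under the group `(ℤ/2)²` which acts on `W`, with the action on
the projective line by the half periods in the Heisenberg group of the theta functions of degree
two; for `m = 3` one takes the family of complex structures on (trace free symmetric matrices of
size three) `⊕ ℝ` which sends a point of the conic `n · n = 0` to the complex structure with the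
holomorphic coordinates `(a + i b) n`. The theta functions at `n F(z) / 2`, `n` odd and
large, give rows which solve the equation of holomorphy up to a bounded error. The error is removed
on the finite covering of `S` where the periods of `F` are even, by the contraction of the
untwisted case, and the rows are then averaged over the deck group, in which some rows are
permuted.
-/

namespace Pool.Agent.Results.MP_1d980c_gt.TwistedTorusBundles

open Module TopologicalSpace
open scoped Manifold ContDiff

/-- The diagonal matrix `T(a, b)` with the entries `1, (-1)^b, (-1)^(a+b), (-1)^a, 1, …, 1`. -/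
noncomputable def twist {N : ℕ} (a b : ℤ) (v : Fin N → ℝ) : Fin N → ℝ := fun i =>
  if (i : ℕ) = 1 then (-1) ^ b * v i
  else if (i : ℕ) = 2 then (-1) ^ (a + b) * v i
  else if (i : ℕ) = 3 then (-1) ^ a * v i
  else v i

/-- The smooth manifold `M` of dimension `2 k` has a complex structure. -/
def HasComplexStructure (k : ℕ) (M : Type) [TopologicalSpace M]
    [ChartedSpace (EuclideanSpace ℝ (Fin (2 * k))) M] : Prop :=
  ∃ (N : Type) (_ : TopologicalSpace N) (_ : ChartedSpace (EuclideanSpace ℂ (Fin k)) N),
    IsManifold 𝓘(ℂ, EuclideanSpace ℂ (Fin k)) ∞ N ∧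
    Nonempty (Diffeomorph (𝓡 (2 * k)) 𝓘(ℝ, EuclideanSpace ℂ (Fin k)) M N ∞)

theorem twist_eq {N : ℕ} (a b : ℤ) (v : Fin N → ℝ) :
    Pool.Agent.KS6_95.CX.tw N a b v = twist a b v := by
  funext i
  rw [Pool.Agent.KS6_95.CX.tw_apply]
  unfold Pool.Agent.KS6_95.CX.tz twist
  split_ifs <;> simp

theorem result (m : ℕ) (hm : 2 ≤ m)
    -- `Y` is the plane or the upper half plane
    (Y : Opens ℂ) (hY : (Y : Set ℂ) = Set.univ ∨ (Y : Set ℂ) = {z | 0 < z.im})
    -- a group of holomorphic maps of `Y`, properly discontinuous and cocompact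
    (P : Type) [Group P] [MulAction P Y]
    (hol : ∀ γ : P, ContMDiff 𝓘(ℂ) 𝓘(ℂ) ∞ fun z : Y => γ • z)
    (hprop : ∀ K : Set Y, IsCompact K →
      {σ : Y → Y | ∃ γ : P, (σ = fun z => γ • z) ∧ ∃ z ∈ K, γ • z ∈ K}.Finite)
    (hcomp : ∃ K : Set Y, IsCompact K ∧ ∀ z, ∃ γ : P, γ • z ∈ K)
    -- a nonconstant holomorphic function
    (F : Y → ℂ) (hF : ContMDiff 𝓘(ℂ) 𝓘(ℂ) ∞ F) (hF' : ∃ z w, F z ≠ F w)
    -- a real vector space with `2 m` coordinates, a representation of the group on it, and a
    -- smooth family of isomorphisms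
    (V : Type) [NormedAddCommGroup V] [NormedSpace ℝ V] (x : V ≃L[ℝ] (Fin (2 * m) → ℝ))
    (A : P →* (V →L[ℝ] V)) (G : Y → V ≃L[ℝ] V)
    (hG : ContMDiff 𝓘(ℝ, ℂ) 𝓘(ℝ, V →L[ℝ] V) ∞ fun z => (G z : V →L[ℝ] V))
    -- `F` is additive with periods in `ℤ[i]`, and `G` is an isomorphism of the twisted bundle
    -- with the flat bundle of `A`
    (hGA : ∀ γ : P, ∃ a b : ℤ, (∀ z, F (γ • z) = F z + a + b * Complex.I) ∧
      ∀ z v, G (γ • z) (x.symm (twist a b (x v))) = A γ (G z v))
    -- the translations
    (b : P → Y → V) (hb : ∀ γ, ContMDiff 𝓘(ℝ, ℂ) 𝓘(ℝ, V) ∞ (b γ))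
    (hbc : ∀ γ δ z, b (γ * δ) z = A γ (b δ z) + b γ (δ • z))
    (hbk : ∀ γ, (∀ z : Y, γ • z = z) → ∃ v, ∀ z, b γ z = v)
    -- the smooth manifold `M`, the quotient of `Y × V` by `P`
    (M : Type) [TopologicalSpace M] [ChartedSpace (EuclideanSpace ℝ (Fin (2 * (m + 1)))) M]
    [IsManifold (𝓡 (2 * (m + 1))) ∞ M] (π : Y × V → M) (hs : Function.Surjective π)
    (hl : IsLocalDiffeomorph (𝓘(ℝ, ℂ).prod 𝓘(ℝ, V)) (𝓡 (2 * (m + 1))) ∞ π)
    (hπ : ∀ x y, π x = π y ↔ ∃ γ : P, (γ • x.1, A γ x.2 + b γ x.1) = y) :
    HasComplexStructure (m + 1) M :=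
  Pool.Agent.KS6_95.CX.final_tw m hm Y hY P hol hprop hcomp F hF hF' V x A G hG
    (fun γ => by
      obtain ⟨a, b, h1, h2⟩ := hGA γ
      exact ⟨a, b, h1, fun z v => by rw [twist_eq]; exact h2 z v⟩)
    b hb hbc hbk M π hs hl hπ

end Pool.Agent.Results.MP_1d980c_gt.TwistedTorusBundles
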